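import Pool.Agent.H37.CNW.Stmts

/-!
# Row XPU of the board `cnw`: the upper bound for the wreath products `C_p ≀_Ω H`
-/

set_option autoImplicit false

namespace Pool.CND

open Finset

namespace XPU

theorem finite_pw (p : ℕ) (hp : p.Prime) (H Ω : Type) [Group H] [Finite H] [Finite Ω]
    [MulAction H Ω] : Finite (PW p H Ω) := by
  have : NeZero p := ⟨hp.ne_zero⟩
  have : Finite (Multiplicative (ZMod p)) := inferInstanceAs (Finite (ZMod p))
  exact Finite.of_equiv _ (SemidirectProduct.equivProd (φ := mulAutArrow (G := H) (A := Ω)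
    (M := Multiplicative (ZMod p)))).symm

theorem left_mul (p : ℕ) (H Ω : Type) [Group H] [MulAction H Ω] (a b : PW p H Ω) (ω : Ω)
    (ha : a.right • ω = ω) : (a * b).left ω = a.left ω * b.left ω := by
  rw [SemidirectProduct.mul_left]
  show a.left ω * ((mulAutArrow a.right) b.left) ω = _
  have h1 : a.right⁻¹ • ω = ω := by
    rw [inv_smul_eq_iff, ha]
  have h2 : ((mulAutArrow a.right) b.left) ω = b.left (a.right⁻¹ • ω) := rfl
  rw [h2, h1]

theorem pow_zmod (p : ℕ) (x : Multiplicative (ZMod p)) : x ^ p = 1 := by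
  have h : ∀ y : ZMod p, p • y = 0 := by
    intro y
    rw [nsmul_eq_mul, CharP.cast_eq_zero, zero_mul]
  exact h x

/-- elements of the kernel have order dividing `p` -/
theorem pow_ker (p : ℕ) (H Ω : Type) [Group H] [MulAction H Ω] (a : PW p H Ω)
    (ha : a.right = 1) : a ^ p = 1 := by
  have h1 : a = SemidirectProduct.inl a.left := by
    ext1
    · rfl
    · exact ha
  rw [h1, ← map_pow]
  have h2 : a.left ^ p = 1 := by
    funext ω
    exact pow_zmod p _
  rw [h2, map_one]

end XPU

open XPU in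
theorem xpu_thm (hWQU : S_WQU) (hXPQ : S_XPQ) (hALL : S_ALL) (hXD4 : S_XD4) (hWP3 : S_WP3)
    (hNGD : S_NGD) (hSUB : S_SUB) (hCON : S_CON) (hWLD : S_WLD) : S_XPU := by
  classical
  intro p k H Ω _ _ _ _ _ _ n hp hch hn hNG hIor
  have : Fact p.Prime := ⟨hp⟩
  have : Finite (PW p H Ω) := finite_pw p hp H Ω
  have key : ∀ c ∈ Cond k (PW p H Ω), ∃ y : ℤ, (n : ℚ) * c = y := by
    rintro c ⟨L', _, _, ρ', t', hcov, P', hPt', hc⟩
    obtain ⟨L, iL, iA, ρ, t, j, P, e', hcov1, hjt, hPt, hWX⟩ :=
      hWQU k L' (PW p H Ω) H ρ' SemidirectProduct.rightHom P' t' hcov hPt'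
        SemidirectProduct.rightHom_surjective
    obtain ⟨W, I, hW, hI, _, _⟩ := hSUB k L H P ρ
    obtain ⟨W', I', hW', hI', hWI', -, m', hm', hcard'⟩ :=
      hWLD p k L' (PW p H Ω) P' ρ' hp hch hWX.inj'
    have := Fintype.ofFinite (PW p H Ω)
    have := Fintype.ofFinite H
    have hne : ∀ (g : PW p H Ω) (x : L'), x ≠ 0 → ρ' g x ≠ 0 := by
      intro g x hx h
      exact hx ((map_eq_zero_iff (ρ' g) (ρ' g).injective).1 h)
    let A : Subgroup (PW p H Ω) :=
      { carrier := {g | (SemidirectProduct.rightHom : PW p H Ω →* H) g = 1 ∧ Fixes P' (ρ' g)}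
        one_mem' := by
          refine ⟨map_one _, fun x _ => ?_⟩
          rw [map_one]
          rfl
        mul_mem' := by
          rintro a b ⟨ha, ha'⟩ ⟨hb, hb'⟩
          refine ⟨by rw [map_mul, ha, hb, one_mul], fun x hx => ?_⟩
          rw [map_mul]
          show P'.ord (ρ' a (ρ' b x)) = P'.ord x
          rw [ha' _ (hne b x hx), hb' x hx]
        inv_mem' := by
          rintro a ⟨ha, ha'⟩
          refine ⟨by rw [map_inv, ha, inv_one], fun x hx => ?_⟩
          have h1 : ρ' a (ρ' a⁻¹ x) = x := by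
            rw [← AlgEquiv.mul_apply, ← map_mul, mul_inv_cancel, map_one]
            rfl
          rw [← ha' _ (hne a⁻¹ x hx), h1] }
    have hA : ∀ g : PW p H Ω, g ∈ A ↔
        (SemidirectProduct.rightHom : PW p H Ω →* H) g = 1 ∧ Fixes P' (ρ' g) := fun g => Iff.rfl
    have hAp : ∃ a : ℕ, Nat.card A = p ^ a := by
      refine (IsPGroup.iff_card (p := p) (G := A)).1 ?_
      intro g
      refine ⟨1, ?_⟩
      rw [pow_one]
      exact Subtype.ext (pow_ker p H Ω g.1 ((hA g.1).1 g.2).1)
    rcases hCON k L' (PW p H Ω) P' ρ' W' I' c hWX.inj' hW' hI' hc with h0 | ⟨l, hl, -⟩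
    · exact ⟨0, by rw [h0]; simp⟩
    obtain ⟨z, hzW, hz1, hzl⟩ := hl.mem
    have hzI : z ∈ I' := hWI' hzW
    by_cases hπ : (SemidirectProduct.rightHom : PW p H Ω →* H) z = 1
    swap
    · have hcP : IsConductor P ρ c :=
        hXPQ p k L L' (PW p H Ω) H ρ ρ' j SemidirectProduct.rightHom P P' e' A W' z l c hp hch hWX
          hA hAp hW' hzW hπ hzl hl hc
      obtain ⟨y, hy⟩ := hALL p k H c hp hch ⟨L, iL, iA, ρ, t, hcov1, P, hPt, hcP⟩
      obtain ⟨m, hm⟩ := hNG
      refine ⟨m * y, ?_⟩
      rw [hm]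
      push_cast
      rw [← hy]
      ring
    -- `z` in the kernel
    have hzr : z.right = 1 := hπ
    obtain ⟨ω, hω⟩ : ∃ ω : Ω, z.left ω ≠ 1 := by
      by_contra h
      push Not at h
      apply hz1
      ext1
      · funext ω
        exact h ω
      · exact hzr
    let B : Subgroup (PW p H Ω) :=
      { carrier := {g | g ∈ I' ∧ g.right • ω = ω}
        one_mem' := ⟨I'.one_mem, by rw [SemidirectProduct.one_right, one_smul]⟩
        mul_mem' := by
          rintro a b ⟨ha, ha'⟩ ⟨hb, hb'⟩
          refine ⟨I'.mul_mem ha hb, ?_⟩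
          rw [SemidirectProduct.mul_right, mul_smul, hb', ha']
        inv_mem' := by
          rintro a ⟨ha, ha'⟩
          refine ⟨I'.inv_mem ha, ?_⟩
          rw [SemidirectProduct.inv_right, inv_smul_eq_iff, ha'] }
    have hB : ∀ g : PW p H Ω, g ∈ B ↔ g ∈ I' ∧ g.right • ω = ω := fun g => Iff.rfl
    let lam : B →* Multiplicative (ZMod p) :=
      { toFun := fun g => g.1.left ω
        map_one' := by
          show (1 : PW p H Ω).left ω = 1
          rw [SemidirectProduct.one_left]
          rfl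
        map_mul' := fun a b => left_mul p H Ω a.1 b.1 ω ((hB a.1).1 a.2).2 }
    have hlam : ∀ g : B, lam g = g.1.left ω := fun g => rfl
    let N : Subgroup (PW p H Ω) := lam.ker.map B.subtype
    have hN : ∀ g : PW p H Ω, g ∈ N ↔ g ∈ B ∧ g.left ω = 1 := by
      intro g
      constructor
      · rintro ⟨x, hx, rfl⟩
        exact ⟨x.2, hx⟩
      · rintro ⟨h1, h2⟩
        exact ⟨⟨g, h1⟩, h2, rfl⟩
    have hNB : N ≤ B := fun g hg => ((hN g).1 hg).1
    have hBI : B ≤ I' := fun g hg => ((hB g).1 hg).1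
    have hzB : z ∈ B := (hB z).2 ⟨hzI, by rw [hzr, one_smul]⟩
    have hzN : z ∉ N := fun h => hω ((hN z).1 h).2
    have hNn : ∀ g ∈ B, ∀ x ∈ N, g * x * g⁻¹ ∈ N := by
      intro g hg x hx
      obtain ⟨y, hy, rfl⟩ := hx
      refine ⟨⟨g, hg⟩ * y * ⟨g, hg⟩⁻¹, ?_, rfl⟩
      exact (inferInstance : lam.ker.Normal).conj_mem y hy ⟨g, hg⟩
    have hcardZ : Nat.card (Multiplicative (ZMod p)) = p := by
      rw [Nat.card_congr Multiplicative.toAdd, Nat.card_zmod]
    have hrange : lam.range = ⊤ := by
      have : Finite (Multiplicative (ZMod p)) := by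
        have : NeZero p := ⟨hp.ne_zero⟩
        exact inferInstanceAs (Finite (ZMod p))
      have h1 : Nat.card lam.range ∣ p := by
        have := Subgroup.card_subgroup_dvd_card lam.range
        rwa [hcardZ] at this
      rcases (Nat.dvd_prime hp).1 h1 with h2 | h2
      · exfalso
        have h3 : lam.range = ⊥ := Subgroup.card_eq_one.1 h2
        have h4 : lam ⟨z, hzB⟩ ∈ lam.range := ⟨_, rfl⟩
        rw [h3, Subgroup.mem_bot] at h4
        exact hω h4
      · exact Subgroup.eq_top_of_card_eq _ (by rw [h2, hcardZ])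
    have hcardN : Nat.card N = Nat.card lam.ker :=
      (Nat.card_congr (Subgroup.equivMapOfInjective lam.ker B.subtype
        B.subtype_injective).toEquiv).symm
    have hcardB : Nat.card B = p * Nat.card N := by
      have h1 := Subgroup.card_mul_index lam.ker
      rw [Subgroup.index_ker, hrange, Subgroup.card_top, hcardZ] at h1
      rw [hcardN, ← h1, mul_comm]
    obtain ⟨y, hy, hy2⟩ := hXD4 p k L' (PW p H Ω) P' ρ' I' W' B N z l c hp hch hWX.inj' hI' hW' hNB
      hBI hNn hcardB hzB hzN hzl hl hc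
    -- the orbit
    set r : ℕ := ({ω' : Ω | ∃ h ∈ ram P ρ 0, ω' = h • ω} : Set Ω).ncard with hr
    have hrI : r ∣ Nat.gcd 2 p * n :=
      hIor r ⟨L, iL, iA, ρ, t, hcov1, P, hPt, ω, rfl⟩
    have hw3 := (hWP3 p k L L' (PW p H Ω) H ρ ρ' j SemidirectProduct.rightHom P P' e' A I' I hp hch
      hWX hA hI' hI).1
    have hcardI : Nat.card I' = Nat.card B * r := by
      let _i : MulAction I' Ω := MulAction.compHom Ω
        ((SemidirectProduct.rightHom : PW p H Ω →* H).comp I'.subtype)
      have hsm : ∀ (g : I') (x : Ω), g • x = g.1.right • x := fun g x => rfl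
      have h1 : (MulAction.orbit I' ω) = {ω' : Ω | ∃ h ∈ ram P ρ 0, ω' = h • ω} := by
        ext x
        constructor
        · rintro ⟨g, rfl⟩
          refine ⟨g.1.right, (hw3 _).2 ⟨g.1, ?_, rfl⟩, rfl⟩
          rw [← hI']
          exact g.2
        · rintro ⟨h, hh, rfl⟩
          obtain ⟨g, hg, hgh⟩ := (hw3 h).1 hh
          rw [← hI'] at hg
          refine ⟨⟨g, hg⟩, ?_⟩
          show g.right • ω = h • ω
          rw [← hgh]
          rfl
      have h2 : MulAction.stabilizer I' ω = B.subgroupOf I' := by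
        ext g
        rw [MulAction.mem_stabilizer_iff, Subgroup.mem_subgroupOf, hsm, hB]
        exact ⟨fun h => ⟨g.2, h⟩, fun h => h.2⟩
      have h3 := Subgroup.card_mul_index (MulAction.stabilizer I' ω)
      rw [MulAction.index_stabilizer, h1, h2,
        Nat.card_congr (Subgroup.subgroupOfEquivOfLe hBI).toEquiv] at h3
      rw [← h3]
    have hBpos : (0 : ℚ) < Nat.card B := by exact_mod_cast Nat.card_pos
    have hrc : (r : ℚ) * c = y := by
      have h1 : (Nat.card B : ℚ) * ((r : ℚ) * c) = Nat.card B * y := by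
        rw [← mul_assoc, ← hy, hcardI]
        push_cast
        ring
      exact mul_left_cancel₀ hBpos.ne' h1
    have hdiv : r ∣ n → ∃ y : ℤ, (n : ℚ) * c = y := by
      rintro ⟨m, hm⟩
      refine ⟨m * y, ?_⟩
      rw [hm]
      push_cast
      rw [← hrc]
      ring
    by_cases hp2 : p = 2
    · by_cases hWB : W' ≤ B
      · -- `r` is odd
        have hrodd : ¬ p ∣ r := by
          intro h
          apply hm'
          have h1 : Nat.card W' ∣ Nat.card B := Subgroup.card_dvd_of_le hWB
          obtain ⟨s, hs⟩ := h1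
          have hWpos : 0 < Nat.card W' := Nat.card_pos
          have h2 : Nat.card W' * (s * r) = Nat.card W' * m' := by
            rw [← mul_assoc, ← hs, ← hcardI, hcard', mul_comm]
          have h3 : s * r = m' := Nat.eq_of_mul_eq_mul_left hWpos h2
          rw [← h3]
          exact h.mul_left s
        apply hdiv
        have h1 : Nat.Coprime r 2 := by
          rw [hp2] at hrodd
          exact ((Nat.prime_two.coprime_iff_not_dvd).2 hrodd).symm
        have h2 : Nat.gcd 2 p = 2 := by rw [hp2, Nat.gcd_self]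
        rw [h2] at hrI
        exact h1.dvd_of_dvd_mul_left hrI
      · obtain ⟨y', hy'⟩ := hy2 hp2 hWB
        obtain ⟨m, hm⟩ := hrI
        have h2 : Nat.gcd 2 p = 2 := by rw [hp2, Nat.gcd_self]
        rw [h2] at hm
        refine ⟨m * y', ?_⟩
        have h3 : (2 : ℚ) * n = r * m := by exact_mod_cast hm
        have h4 : (y : ℚ) = 2 * y' := by exact_mod_cast hy'
        have h5 : (2 : ℚ) * (n * c) = 2 * ((m : ℚ) * y') := by
          rw [← mul_assoc, h3]
          rw [h4] at hrc
          linear_combination (m : ℚ) * hrc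
        have h6 : (n : ℚ) * c = (m : ℚ) * y' := mul_left_cancel₀ two_ne_zero h5
        rw [h6]
        push_cast
        ring
    · apply hdiv
      have h1 : Nat.gcd 2 p = 1 := by
        have := (Nat.coprime_primes Nat.prime_two hp).2 (Ne.symm hp2)
        exact this
      rwa [h1, one_mul] at hrI
  exact ⟨key, hNGD k (PW p H Ω) n hn key⟩

end Pool.CND
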